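import Pool.Agent.H6.HFinal
import Mathlib.Order.Ideal
import Mathlib.Order.WithBot
import Mathlib.Logic.Encodable.Basic

/-!
# Countable lattices in complete uniquely complemented lattices

The lattice of ideals of a countable bounded lattice with at most one complement for each element
is a good base of the construction of `Pool.Agent.H6`.
-/

set_option autoImplicit false

namespace Pool.Agent.H21.OFB

open Filter Order Pool.Agent.H6.Hunt

section

variable {M : Type} [Lattice M] [BoundedOrder M]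

/-- union of a directed family of ideals -/
def dirUnion (D : Set (Ideal M)) (hD : D.Nonempty) (hD' : DirectedOn (· ≤ ·) D) : Ideal M where
  carrier := {x | ∃ d ∈ D, x ∈ d}
  lower' := by
    rintro a b hab ⟨d, hd, ha⟩
    exact ⟨d, hd, d.lower hab ha⟩
  nonempty' := by
    obtain ⟨d, hd⟩ := hD
    exact ⟨⊥, d, hd, Ideal.bot_mem d⟩
  directed' := by
    rintro a ⟨d, hd, ha⟩ b ⟨d', hd', hb⟩
    obtain ⟨e, he, h1, h2⟩ := hD' d hd d' hd'
    exact ⟨a ⊔ b, ⟨e, he, Ideal.sup_mem (h1 ha) (h2 hb)⟩, le_sup_left, le_sup_right⟩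

theorem mem_dirUnion {D : Set (Ideal M)} {hD : D.Nonempty} {hD' : DirectedOn (· ≤ ·) D} {x : M} :
    x ∈ dirUnion D hD hD' ↔ ∃ d ∈ D, x ∈ d := Iff.rfl

theorem uc_ideal : UC (Ideal M) := by
  intro a D hD hD' x hx
  rw [Order.Ideal.mem_inf] at hx
  have h1 : sSup D ≤ dirUnion D hD hD' := by
    apply sSup_le
    intro d hd y hy
    exact ⟨d, hd, hy⟩
  obtain ⟨d, hd, hxd⟩ := h1 hx.2
  have h2 : a ⊓ d ≤ ⨆ d ∈ D, a ⊓ d := le_iSup₂ (f := fun d (_ : d ∈ D) => a ⊓ d) d hd
  exact h2 (Order.Ideal.mem_inf.2 ⟨hx.1, hxd⟩)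

/-- in a lattice with at most one complement for each element two complementary ideals are
principal, with complementary generators -/
theorem ideal_compl (au : ∀ a b c : M, IsCompl a b → IsCompl a c → b = c) (I J : Ideal M)
    (h : IsCompl I J) : ∃ i j : M, IsCompl i j ∧ I = Ideal.principal i ∧ J = Ideal.principal j := by
  rw [isCompl_iff, disjoint_iff, codisjoint_iff] at h
  obtain ⟨h1, h2⟩ := h
  have h3 : (⊤ : M) ∈ I ⊔ J := by rw [h2]; trivial
  obtain ⟨i, hi, j, hj, hij⟩ := Ideal.mem_sup.1 h3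
  have h4 : ∀ i' ∈ I, ∀ j' ∈ J, i' ⊓ j' = ⊥ := by
    intro i' hi' j' hj'
    have h5 : i' ⊓ j' ∈ I ⊓ J :=
      Order.Ideal.mem_inf.2 ⟨I.lower inf_le_left hi', J.lower inf_le_right hj'⟩
    rw [h1] at h5
    exact le_bot_iff.1 (Ideal.mem_principal.1 (by rw [Ideal.principal_bot]; exact h5))
  have hcompl : ∀ i' ∈ I, ∀ j' ∈ J, i ≤ i' → j ≤ j' → IsCompl i' j' := by
    intro i' hi' j' hj' h5 h6
    rw [isCompl_iff, disjoint_iff, codisjoint_iff]
    exact ⟨h4 i' hi' j' hj', top_le_iff.1 (hij.trans (sup_le_sup h5 h6))⟩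
  have h0 := hcompl i hi j hj le_rfl le_rfl
  refine ⟨i, j, h0, le_antisymm ?_ ?_, le_antisymm ?_ ?_⟩
  · intro x hx
    rw [Ideal.mem_principal]
    have h5 := hcompl (i ⊔ x) (Ideal.sup_mem hi hx) j hj le_sup_left le_rfl
    rw [au j i (i ⊔ x) h0.symm h5.symm]
    exact le_sup_right
  · rwa [Ideal.principal_le_iff]
  · intro x hx
    rw [Ideal.mem_principal]
    have h5 := hcompl i hi (j ⊔ x) (Ideal.sup_mem hj hx) le_rfl le_sup_left
    rw [au i j (j ⊔ x) h0 h5]
    exact le_sup_right
  · rwa [Ideal.principal_le_iff]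

theorem principal_inj {a b : M} (h : Ideal.principal a = Ideal.principal b) : a = b := by
  apply le_antisymm
  · rw [← Ideal.mem_principal, ← h]; exact Ideal.mem_principal_self
  · rw [← Ideal.mem_principal, h]; exact Ideal.mem_principal_self

theorem au_ideal (au : ∀ a b c : M, IsCompl a b → IsCompl a c → b = c) (I J K : Ideal M)
    (h : IsCompl I J) (h' : IsCompl I K) : J = K := by
  obtain ⟨i, j, h1, h2, h3⟩ := ideal_compl au I J h
  obtain ⟨i', k, h1', h2', h3'⟩ := ideal_compl au I K h'
  have h4 : i = i' := principal_inj (h2.symm.trans h2')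
  subst h4
  rw [h3, h3', au i j k h1 h1']

open Classical in
/-- the code of an ideal -/
noncomputable def idc (g : M → ℕ) (I : Ideal M) (k : ℕ) : Bool := decide (∃ m ∈ I, g m = k)

theorem idc_mem {g : M → ℕ} (hg : Function.Injective g) (I : Ideal M) (m : M) :
    idc g I (g m) = true ↔ m ∈ I := by
  simp only [idc, decide_eq_true_eq]
  constructor
  · rintro ⟨m', h1, h2⟩
    rwa [← hg h2]
  · intro h
    exact ⟨m, h, rfl⟩

theorem idc_inj {g : M → ℕ} (hg : Function.Injective g) : Function.Injective (idc (M := M) g) := by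
  intro I J h
  ext m
  rw [SetLike.mem_coe, SetLike.mem_coe, ← idc_mem hg, ← idc_mem hg, h]

theorem cc_ev {g : M → ℕ} (hg : Function.Injective g) {X : Type} {U : Ultrafilter X}
    {z : X → Ideal M} {w : Ideal M} (h : CC (idc g) U z w) (m : M) :
    ∀ᶠ x in (U : Filter X), (m ∈ z x ↔ m ∈ w) := by
  filter_upwards [h (g m)] with x hx
  rw [← idc_mem hg, ← idc_mem hg, hx]

theorem pc_ev {g : M → ℕ} (hg : Function.Injective g) {X : Type} {U : Ultrafilter X}
    {q : X → Ideal M} {a : Ideal M} (h : Pc (idc g) U q a) :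
    ∀ m ∈ a, ∀ᶠ x in (U : Filter X), m ∈ q x := by
  induction h with
  | leaf h =>
    intro m hm
    filter_upwards [cc_ev hg h m] with x hx
    exact hx.2 hm
  | sup _ _ ih ih' =>
    intro m hm
    obtain ⟨i, hi, j, hj, hij⟩ := Ideal.mem_sup.1 hm
    filter_upwards [ih i hi, ih' j hj] with x h1 h2
    exact Ideal.mem_sup.2 ⟨i, h1, j, h2, hij⟩
  | inf _ _ ih ih' =>
    intro m hm
    obtain ⟨h1, h2⟩ := Order.Ideal.mem_inf.1 hm
    filter_upwards [ih m h1, ih' m h2] with x h3 h4
    exact Order.Ideal.mem_inf.2 ⟨h3, h4⟩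

theorem tt_ideal {g : M → ℕ} (hg : Function.Injective g) : TT (idc (M := M) g) := by
  intro X U q b a w hq hb hqb m hm
  obtain ⟨x, ⟨h1, h2⟩, h3⟩ := (((pc_ev hg hq m hm).and hqb).and (cc_ev hg hb m)).exists
  exact h3.1 (h2 h1)

theorem good_ideal [Countable M] (au : ∀ a b c : M, IsCompl a b → IsCompl a c → b = c) :
    Good (Ideal M) := by
  obtain ⟨g, hg⟩ := exists_injective_nat M
  exact ⟨uc_ideal, au_ideal au, idc g, idc_inj hg, tt_ideal hg⟩

/-- a countable bounded lattice with at most one complement for each element is a bounded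
sublattice of a complete uniquely complemented lattice -/
theorem embed_bounded [Countable M] (au : ∀ a b c : M, IsCompl a b → IsCompl a c → b = c) :
    ∃ (L : Type) (_ : CompleteLattice L) (f : M → L), (∀ a : L, ∃! b : L, IsCompl a b) ∧
      Function.Injective f ∧ (∀ x y, f (x ⊔ y) = f x ⊔ f y) ∧ (∀ x y, f (x ⊓ y) = f x ⊓ f y) ∧
      f ⊥ = ⊥ ∧ f ⊤ = ⊤ := by
  obtain ⟨I, _, _, hcount, hunc⟩ := exists_index
  have hne : Nonempty I := by
    by_contra h
    rw [not_nonempty_iff] at h
    exact hunc inferInstance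
  let i₀ : I := (wellFounded_lt (α := I)).min Set.univ Set.univ_nonempty
  have hi₀ : ∀ i : I, i₀ ≤ i := fun i => not_lt.1
    ((wellFounded_lt (α := I)).not_lt_min Set.univ (Set.mem_univ i))
  have hgood : Good (Ideal M) := good_ideal au
  obtain ⟨c, hc, -⟩ := hgood.code
  let B : Stage (Nm I) :=
    ⟨Ideal M, inferInstance, fun x => ⟨i₀, c x⟩, fun x y h => hc (by simpa using h)⟩
  obtain ⟨L, instL, h1, β, hβ⟩ := long_main B hgood (fun _ i => hi₀ i) hcount hunc
  refine ⟨L, instL, fun m => β (Ideal.principal m : Ideal M), h1, ?_, ?_, ?_, ?_, ?_⟩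
  · intro x y h
    exact principal_inj (hβ.inj h)
  · intro x y
    have h2 : (Ideal.principal (x ⊔ y) : Ideal M) = Ideal.principal x ⊔ Ideal.principal y := by
      ext m
      rw [SetLike.mem_coe, SetLike.mem_coe, Ideal.mem_principal, Ideal.mem_sup]
      constructor
      · intro h
        exact ⟨x, Ideal.mem_principal_self, y, Ideal.mem_principal_self, h⟩
      · rintro ⟨i, hi, j, hj, h⟩
        exact h.trans (sup_le_sup (Ideal.mem_principal.1 hi) (Ideal.mem_principal.1 hj))
    show β (Ideal.principal (x ⊔ y) : Ideal M) = _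
    rw [h2]
    exact hβ.map_sup _ _
  · intro x y
    have h2 : (Ideal.principal (x ⊓ y) : Ideal M) = Ideal.principal x ⊓ Ideal.principal y := by
      ext m
      rw [SetLike.mem_coe, SetLike.mem_coe, Ideal.mem_principal, Order.Ideal.mem_inf,
        Ideal.mem_principal, Ideal.mem_principal]
      exact le_inf_iff
    show β (Ideal.principal (x ⊓ y) : Ideal M) = _
    rw [h2]
    exact hβ.map_inf _ _
  · show β (Ideal.principal (⊥ : M) : Ideal M) = _
    rw [Ideal.principal_bot]
    exact hβ.map_bot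
  · show β (Ideal.principal (⊤ : M) : Ideal M) = _
    rw [Ideal.principal_top]
    exact hβ.map_top

end

section

variable {M : Type} [Lattice M]

theorem compl_with {a b : WithBot (WithTop M)} (h : IsCompl a b) :
    (a = ⊥ ∧ b = ⊤) ∨ (a = ⊤ ∧ b = ⊥) := by
  rw [isCompl_iff, disjoint_iff, codisjoint_iff] at h
  obtain ⟨h1, h2⟩ := h
  have h3 : a = ⊤ ∨ b = ⊤ := by
    induction a using WithBot.recBotCoe with
    | bot => right; simpa using h2
    | coe a =>
      induction b using WithBot.recBotCoe with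
      | bot => left; simpa using h2
      | coe b =>
        induction a using WithTop.recTopCoe with
        | top => left; rfl
        | coe a =>
          induction b using WithTop.recTopCoe with
          | top => right; rfl
          | coe b =>
            exfalso
            have h4 : ((((a ⊔ b : M) : WithTop M)) : WithBot (WithTop M)) = ⊤ := h2
            have h5 : ((a ⊔ b : M) : WithTop M) = ⊤ := WithBot.coe_injective h4
            exact WithTop.coe_ne_top h5
  rcases h3 with h3 | h3
  · right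
    rw [h3, top_inf_eq] at h1
    exact ⟨h3, h1⟩
  · left
    rw [h3, inf_top_eq] at h1
    exact ⟨h1, h3⟩

theorem au_with (a b c : WithBot (WithTop M)) (h : IsCompl a b) (h' : IsCompl a c) : b = c := by
  have h0 : (⊥ : WithBot (WithTop M)) ≠ ⊤ := bot_ne_top
  rcases compl_with h with ⟨h1, h2⟩ | ⟨h1, h2⟩ <;> rcases compl_with h' with ⟨h3, h4⟩ | ⟨h3, h4⟩
  · rw [h2, h4]
  · exact absurd (h1.symm.trans h3) h0
  · exact absurd (h3.symm.trans h1) h0
  · rw [h2, h4]

/-- every countable lattice is a sublattice of a complete uniquely complemented lattice -/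
theorem embed_countable [Countable M] :
    ∃ (L : Type) (_ : CompleteLattice L) (f : M → L), (∀ a : L, ∃! b : L, IsCompl a b) ∧
      Function.Injective f ∧ (∀ x y, f (x ⊔ y) = f x ⊔ f y) ∧
      (∀ x y, f (x ⊓ y) = f x ⊓ f y) := by
  have hc : Countable (WithBot (WithTop M)) := inferInstanceAs (Countable (Option (Option M)))
  obtain ⟨L, instL, f, h1, h2, h3, h4, -, -⟩ :=
    embed_bounded (M := WithBot (WithTop M)) (fun a b c => au_with a b c)
  refine ⟨L, instL, fun m => f ((m : WithTop M) : WithBot (WithTop M)), h1, ?_, ?_, ?_⟩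
  · intro x y h
    exact WithTop.coe_injective (WithBot.coe_injective (h2 h))
  · intro x y
    exact h3 (((x : M) : WithTop M) : WithBot (WithTop M)) ((y : WithTop M) : WithBot (WithTop M))
  · intro x y
    exact h4 (((x : M) : WithTop M) : WithBot (WithTop M)) ((y : WithTop M) : WithBot (WithTop M))

end

end Pool.Agent.H21.OFB
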