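import Mathlib.Order.Lattice
import Mathlib.Tactic.DeriveCountable

/-! Lattice terms -/

set_option autoImplicit false

namespace Pool.Agent.H21.OFB

/-- lattice terms in the variables `0, 1, 2, ..` -/
inductive Term : Type
  | var (n : ℕ) : Term
  | join (s t : Term) : Term
  | meet (s t : Term) : Term

/-- the value of a term: `var n`, `join s t`, `meet s t` have the values `v n`, `x ⊔ y`, `x ⊓ y`,
where `x`, `y` are the values of `s`, `t` -/
noncomputable def Term.eval {M : Type} [Lattice M] (v : ℕ → M) (t : Term) : M :=
  Term.rec v (fun _ _ x y => x ⊔ y) (fun _ _ x y => x ⊓ y) t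

end Pool.Agent.H21.OFB
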