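import Pool.Agent.H21.OFB.Hunt
import Pool.Agent.H21.OFB.TermDefs

/-!
# Lattice terms, and the free lattice on countably many generators
-/

set_option autoImplicit false

namespace Pool.Agent.H21.OFB

deriving instance Countable for Term

/-- terms with the same value in all lattices -/
def termSetoid : Setoid Term where
  r s t := ∀ (M : Type) [Lattice M] (v : ℕ → M), s.eval v = t.eval v
  iseqv := by
    refine ⟨fun s M _ v => rfl, fun h M _ v => (h M v).symm, fun h h' M _ v => ?_⟩
    exact (h M v).trans (h' M v)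

/-- the free lattice -/
def Free : Type := Quotient termSetoid

instance : Countable Free := inferInstanceAs (Countable (Quotient termSetoid))

/-- join -/
def Free.sup : Free → Free → Free :=
  Quotient.map₂ Term.join (by
    intro s s' h t t' h' M _ v
    show s.eval v ⊔ t.eval v = s'.eval v ⊔ t'.eval v
    rw [h M v, h' M v])

/-- meet -/
def Free.inf : Free → Free → Free :=
  Quotient.map₂ Term.meet (by
    intro s s' h t t' h' M _ v
    show s.eval v ⊓ t.eval v = s'.eval v ⊓ t'.eval v
    rw [h M v, h' M v])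

instance : Max Free := ⟨Free.sup⟩
instance : Min Free := ⟨Free.inf⟩

noncomputable instance : Lattice Free := Lattice.mk'
  (by rintro ⟨a⟩ ⟨b⟩; exact Quotient.sound (fun M _ v => sup_comm (a.eval v) (b.eval v)))
  (by rintro ⟨a⟩ ⟨b⟩ ⟨c⟩
      exact Quotient.sound (fun M _ v => sup_assoc (a.eval v) (b.eval v) (c.eval v)))
  (by rintro ⟨a⟩ ⟨b⟩; exact Quotient.sound (fun M _ v => inf_comm (a.eval v) (b.eval v)))
  (by rintro ⟨a⟩ ⟨b⟩ ⟨c⟩
      exact Quotient.sound (fun M _ v => inf_assoc (a.eval v) (b.eval v) (c.eval v)))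
  (by rintro ⟨a⟩ ⟨b⟩
      exact Quotient.sound (fun M _ v => sup_inf_self (a := a.eval v) (b := b.eval v)))
  (by rintro ⟨a⟩ ⟨b⟩
      exact Quotient.sound (fun M _ v => inf_sup_self (a := a.eval v) (b := b.eval v)))

/-- class of a term -/
def cls (t : Term) : Free := Quotient.mk termSetoid t

theorem eval_var (t : Term) : t.eval (fun n => cls (.var n)) = cls t := by
  induction t with
  | var n => rfl
  | join s t hs ht =>
    show s.eval _ ⊔ t.eval _ = _
    rw [hs, ht]
    rfl
  | meet s t hs ht =>
    show s.eval _ ⊓ t.eval _ = _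
    rw [hs, ht]
    rfl

theorem eval_map {M L : Type} [Lattice M] [Lattice L] (f : M → L)
    (h1 : ∀ x y, f (x ⊔ y) = f x ⊔ f y) (h2 : ∀ x y, f (x ⊓ y) = f x ⊓ f y) (v : ℕ → M)
    (t : Term) : t.eval (fun n => f (v n)) = f (t.eval v) := by
  induction t with
  | var n => rfl
  | join s t hs ht =>
    show s.eval _ ⊔ t.eval _ = f (s.eval v ⊔ t.eval v)
    rw [hs, ht, h1]
  | meet s t hs ht =>
    show s.eval _ ⊓ t.eval _ = f (s.eval v ⊓ t.eval v)
    rw [hs, ht, h2]

/-- a lattice which contains the free lattice satisfies no identity but those of all lattices -/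
theorem identities {L : Type} [Lattice L] (f : Free → L) (h0 : Function.Injective f)
    (h1 : ∀ x y, f (x ⊔ y) = f x ⊔ f y) (h2 : ∀ x y, f (x ⊓ y) = f x ⊓ f y) (s t : Term)
    (h : ∀ v : ℕ → L, s.eval v = t.eval v) (M : Type) [Lattice M] (v : ℕ → M) :
    s.eval v = t.eval v := by
  have h3 := h (fun n => f (cls (.var n)))
  rw [eval_map f h1 h2, eval_map f h1 h2, eval_var, eval_var] at h3
  exact Quotient.exact (h0 h3) M v

end Pool.Agent.H21.OFB
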